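import Mathlib
import Pool.Agent.Q176.CkEmb

/-!
# MP_041d76: the class `C_k[M]` is not closed under arbitrary topological sums
-/

namespace Pool.Agent.Results.MP_041d76_gt.SumNotInClass

open Set Topology TopologicalSpace

universe u v w

/-- The class `C_k[M]`: spaces homeomorphic to a subspace of `C_k(X, Y)` for some separable
metrizable `X` and metrizable `Y` (`C(X, Y)` carries the compact-open topology). -/
def InCkM (Z : Type w) [TopologicalSpace Z] : Prop :=
  ∃ (X : Type u) (_ : TopologicalSpace X) (Y : Type v) (_ : TopologicalSpace Y),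
    SeparableSpace X ∧ MetrizableSpace X ∧ MetrizableSpace Y ∧ ∃ e : Z → C(X, Y), IsEmbedding e

/-- **Arbitrary sums leave the class**: the sum of the spaces `C_k(N)`, `N ⊆ ℝ`, is not in
`C_k[M]` although each summand is. -/
theorem result : (∀ N : Set ℝ, InCkM.{0, 0} C(N, ℝ)) ∧
    ¬ InCkM.{u, v} (Σ N : Set ℝ, C(N, ℝ)) := by
  constructor
  · intro N
    exact ⟨N, inferInstance, ℝ, inferInstance, inferInstance, inferInstance, inferInstance, id,
      IsEmbedding.id⟩
  · rintro ⟨X, tX, Y, tY, hX, hX', hY, e, he⟩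
    obtain ⟨N, hN⟩ := Q176.CkEmb.exists_not_embeds X Y
    exact hN (fun f => e ⟨N, f⟩) (he.comp (IsEmbedding.sigmaMk (σ := fun N : Set ℝ => C(N, ℝ))))

end Pool.Agent.Results.MP_041d76_gt.SumNotInClass
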